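import Pool.Agent.AFJ.Stmts

set_option autoImplicit false

open MeasureTheory ProbabilityTheory Function Filter

open scoped ENNReal BigOperators Topology NNReal ComplexOrder Matrix

noncomputable section

namespace Pool.Agent.AFJ.H92

open Pool.Agent.LE.QF Pool.Agent.AFJ

section

variable {ι : Type} [Fintype ι] [DecidableEq ι] {E : Type} [NormedAddCommGroup E]
  [NormedSpace ℝ E]

theorem hj_cast {F F' : ℝ × (ι → ℝ) → E} {q : ℝ × (ι → ℝ)} {v v' : E} {g g' : ι → E} {l l' : E}
    (h : HJ F q v g l) (hF : F = F') (hv : v = v') (hg : g = g') (hl : l = l') :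
    HJ F' q v' g' l' := by
  subst hF hv hg hl
  exact h

end

theorem hj_re {ι : Type} [Fintype ι] [DecidableEq ι] (hJ : JalStmt) {q : ℝ × (ι → ℝ)}
    {F : ℝ × (ι → ℝ) → ℂ} {v l : ℂ} {g : ι → ℂ}
    (h : HJ F q v g l) : HJ (fun r => (F r).re) q v.re (fun c => (g c).re) l.re := by
  have h1 := ((hJ ι ℂ q).2.2.2.1 F v l g h).2.1
  exact h1

variable {X : Type} [Fintype X] [DecidableEq X]

theorem mul_diag_mul {K : Type} [CommRing K] (A : Matrix X X K) (φ : X → K) (a b : X) :
    (A * Matrix.diagonal φ * A) a b = ∑ c, A a c * φ c * A c b := by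
  rw [Matrix.mul_apply]
  refine Finset.sum_congr rfl fun c _ => ?_
  rw [Matrix.mul_diagonal]

theorem sum_ind_real (b : Finset X) (f : X → ℝ) :
    ∑ c, f c * ind b c = ∑ c : b, f c := by
  rw [Finset.sum_coe_sort b f]
  simp only [ind, mul_ite, mul_one, mul_zero]
  rw [Finset.sum_ite_mem, Finset.univ_inter]

theorem sum_ind_complex (b : Finset X) (f : X → ℂ) :
    ∑ c, f c * ((ind b c : ℝ) : ℂ) = ∑ c : b, f c := by
  rw [Finset.sum_coe_sort b f]
  have : ∀ c, f c * ((ind b c : ℝ) : ℂ) = if c ∈ b then f c else 0 := by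
    intro c
    simp only [ind]
    split_ifs <;> simp
  simp only [this]
  rw [Finset.sum_ite_mem, Finset.univ_inter]

theorem bkj : BkjStmt := by
  intro hJ X _ _ b q Gm kf G κ mb hH
  obtain ⟨hc, _, hadd, hconj, _, _, _, _⟩ := hJ b ℂ q
  have hG := hH.hG
  refine ⟨?_, ?_, ?_⟩
  · intro x y
    refine hj_cast (hadd _ _ _ _ _ _ _ _ (hG x y) (hG x y)).2.2 ?_ ?_ ?_ ?_
    · funext r
      simp only [BB]
      ring
    · simp only [BB]
      ring
    · funext c
      simp only [dB, gG]
      ring
    · rw [Matrix.add_apply, mul_diag_mul]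
      have e1 : ∑ c, BB G x c * ((ind b c : ℝ) : ℂ) * BB G c y =
          ∑ c : b, -(G x c * G c y) * -(G x c * G c y) := by
        rw [← sum_ind_complex b (fun c => -(G x c * G c y) * -(G x c * G c y))]
        refine Finset.sum_congr rfl fun c _ => ?_
        simp only [BB]
        ring
      rw [e1]
      simp only [EB, gG]
      ring
  · intro x y
    have h1 := (hconj _ _ _ _ (hG x y)).1
    have h2 := (hadd _ _ _ _ _ _ _ _ h1 (hG x y)).2.2
    have hn : ∀ z : ℂ, RCLike.re ((starRingEnd ℂ) z * z) = ‖z‖ ^ 2 := by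
      intro z
      rw [← Complex.normSq_eq_norm_sq, mul_comm, Complex.mul_conj]
      exact Complex.ofReal_re _
    have h4 := hj_re hJ h2
    refine hj_cast h4 ?_ ?_ ?_ ?_
    · funext r
      exact hn _
    · exact hn _
    · funext c
      simp only [dK, gG, map_neg, map_mul]
      simp only [Complex.neg_re, Complex.mul_re, Complex.add_re, Complex.conj_re, Complex.conj_im,
        Complex.mul_im, Complex.neg_im]
      ring
    · rw [Matrix.add_apply, mul_diag_mul]
      have e1 : ∑ c, KK G x c * ind b c * KK G c y =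
          (∑ c : b, (starRingEnd ℂ) (-(G x c * G c y)) * -(G x c * G c y)).re := by
        rw [Complex.re_sum]
        have e2 : ∀ c : b, ((starRingEnd ℂ) (-(G x c * G c y)) * -(G x c * G c y)).re =
            ‖G x c‖ ^ 2 * ‖G c y‖ ^ 2 := by
          intro c
          have := hn (-(G x c * G c y))
          rw [norm_neg, norm_mul, mul_pow] at this
          exact this
        rw [Finset.sum_congr rfl fun c _ => e2 c]
        rw [← sum_ind_real b (fun c => ‖G x c‖ ^ 2 * ‖G c y‖ ^ 2)]
        refine Finset.sum_congr rfl fun c _ => ?_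
        simp only [KK]
        ring
      rw [e1]
      simp only [EK, gG, Complex.add_re]
      simp only [Complex.mul_re, Complex.conj_re, Complex.conj_im]
      ring
  · intro x y
    exact hG x y

end Pool.Agent.AFJ.H92
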